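import Pool.Agent.Lib.MP_cdd7b4_an.MX.H63.Basic

set_option autoImplicit false

/-! # RK: slow growth or a good block vector -/

namespace Pool.Agent.Lib.MP_cdd7b4_an.MX.H63

open scoped BigOperators
open Filter

theorem exists_N (B δ : ℝ) (hδ : 0 < δ) (a0 E : ℕ) (hE : 1 ≤ E) : ∃ N : ℕ,
    Real.logb 2 B + 2 * Real.logb 2 (1 + ((a0 + N * E : ℕ) : ℝ)) + ((a0 + N * E : ℕ) : ℝ) / 2 + 2 <
      N * ((1 / 2 + δ) * E) := by
  have hE' : (1 : ℝ) ≤ E := by exact_mod_cast hE
  have hl2 : 0 < Real.log 2 := Real.log_pos (by norm_num)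
  have hy : Tendsto (fun N : ℕ => 1 + ((a0 + N * E : ℕ) : ℝ)) atTop atTop := by
    refine tendsto_atTop_mono (fun N => ?_) tendsto_natCast_atTop_atTop
    push_cast
    have h0 : (0 : ℝ) ≤ N := Nat.cast_nonneg _
    have h1 : (0 : ℝ) ≤ a0 := Nat.cast_nonneg _
    nlinarith
  have h1 := hy.eventually (Real.isLittleO_log_id_atTop.bound
    (show 0 < δ * Real.log 2 / 4 by positivity))
  have h2 : ∀ᶠ N : ℕ in atTop,
      (Real.logb 2 B + δ * (1 + a0) / 2 + a0 / 2 + 2) / (δ / 2) < N :=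
    tendsto_natCast_atTop_atTop.eventually_gt_atTop _
  obtain ⟨N, hN1, hN2⟩ := (h1.and h2).exists
  refine ⟨N, ?_⟩
  rw [div_lt_iff₀ (by positivity)] at hN2
  set y : ℝ := 1 + ((a0 + N * E : ℕ) : ℝ) with hyd
  have hy0 : 0 < y := by
    rw [hyd]
    positivity
  simp only [id, Real.norm_eq_abs, abs_of_pos hy0] at hN1
  have h3 : Real.log y ≤ δ * Real.log 2 / 4 * y := (le_abs_self _).trans hN1
  have h4 : 2 * Real.logb 2 y ≤ δ * y / 2 := by
    rw [Real.logb, ← mul_div_assoc, div_le_iff₀ hl2]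
    linarith
  have h5 : ((a0 + N * E : ℕ) : ℝ) = a0 + N * E := by push_cast; ring
  have h6 : y = 1 + (a0 + N * E) := by rw [hyd, h5]
  rw [h5]
  rw [h6] at h4 ⊢
  have h7 : (N : ℝ) * (δ / 2) ≤ N * E * (δ / 2) := by
    have h0 : (0 : ℝ) ≤ N := Nat.cast_nonneg _
    have : (N : ℝ) ≤ N * E := by nlinarith
    exact mul_le_mul_of_nonneg_right this (by positivity)
  nlinarith

theorem rk (h1 : SlopeStatement) (h2 : TentStatement) (h3 : LtStatement) : RkStatement := by
  intro m B δ ε hm hB hδ hε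
  obtain ⟨c, hc, hLT⟩ := h3 m hm
  obtain ⟨J, hJ⟩ := h2 c hc
  obtain ⟨e, he⟩ := h1 (3 ^ J) δ (Nat.one_le_pow _ _ (by norm_num)) hδ
  set q := Nat.clog 2 (4 * m) with hq
  set T : ℝ := (2 * 3 ^ J + 1) * 2 ^ 3 ^ J / ε with hT
  have hTpos : 0 < T := by
    rw [hT]
    positivity
  obtain ⟨j0, hj0⟩ := pow_unbounded_of_one_lt (4 * T) (show (1 : ℝ) < 2 by norm_num)
  set a0 := j0 * q with ha0
  obtain ⟨N, hN⟩ := exists_N B δ hδ a0 (2 ^ e) (Nat.one_le_pow _ _ (by norm_num))
  refine ⟨a0 + N * 2 ^ e, ?_⟩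
  intro F hF h14 hgrow
  by_cases hslow : ∃ k ≤ a0 + N * 2 ^ e, F (ind (2 ^ (k + q))) ≤ 2 * F (ind (2 ^ k))
  · exact Or.inl hslow
  right
  push Not at hslow
  have hlow : ∀ k, 1 / 4 ≤ F (ind (2 ^ k)) := fun k =>
    h14.trans (F_ind_mono hF (Nat.one_le_pow _ _ (by norm_num)))
  have hpos : ∀ k, 0 < F (ind (2 ^ k)) := fun k => by linarith [hlow k]
  set g : ℕ → ℝ := fun k => Real.logb 2 (F (ind (2 ^ k))) with hg
  have hge : ∀ k, (2 : ℝ) ^ g k = F (ind (2 ^ k)) := fun k =>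
    Real.rpow_logb (by norm_num) (by norm_num) (hpos k)
  have hg1 : ∀ k, g k ≤ g (k + 1) := fun k =>
    Real.logb_le_logb_of_le (by norm_num) (hpos k)
      (F_ind_mono hF (Nat.pow_le_pow_right (by norm_num) (Nat.le_succ k)))
  have hg2 : ∀ k, g (k + 1) ≤ g k + 1 := by
    intro k
    have h5 := F_ind_succ hF k
    have h6 : g (k + 1) ≤ Real.logb 2 (2 * F (ind (2 ^ k))) :=
      Real.logb_le_logb_of_le (by norm_num) (hpos _) h5
    rw [Real.logb_mul (by norm_num) (hpos k).ne', Real.logb_self_eq_one (by norm_num)] at h6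
    linarith
  -- growth along multiples of `q`
  have hexp : ∀ j, j ≤ j0 → 2 ^ j / 4 ≤ F (ind (2 ^ (j * q))) := by
    intro j
    induction j with
    | zero =>
      intro _
      rw [pow_zero]
      exact hlow _
    | succ j ih =>
      intro hj
      have h5 := ih (by omega)
      have h6 : j * q ≤ j0 * q := Nat.mul_le_mul_right q (by omega)
      have h7 := hslow (j * q) (by omega)
      rw [show (j + 1) * q = j * q + q by ring, pow_succ]
      linarith
  have hbig : ∀ k, a0 ≤ k → T ≤ F (ind (2 ^ k)) := by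
    intro k hk
    have h5 := hexp j0 le_rfl
    have h6 := F_ind_mono hF (Nat.pow_le_pow_right (show 0 < 2 by norm_num) hk)
    rw [← ha0] at h5
    linarith
  -- a block with small growth
  obtain ⟨s, hs, hsg⟩ : ∃ s < N, g (a0 + s * 2 ^ e + 2 ^ e) - g (a0 + s * 2 ^ e) ≤
      (1 / 2 + δ) * 2 ^ e := by
    by_contra hcon
    push Not at hcon
    have h5 : ∀ s ≤ N, g a0 + s * ((1 / 2 + δ) * 2 ^ e) ≤ g (a0 + s * 2 ^ e) := by
      intro s
      induction s with
      | zero =>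
        intro _
        simp
      | succ s ih =>
        intro hs
        have h6 := ih (by omega)
        have h7 := hcon s (by omega)
        rw [show a0 + (s + 1) * 2 ^ e = a0 + s * 2 ^ e + 2 ^ e by ring]
        push_cast
        linarith
    have h6 := h5 N le_rfl
    have h7 : -2 ≤ g a0 := by
      rw [hg]
      show -2 ≤ Real.logb 2 (F (ind (2 ^ a0)))
      rw [Real.le_logb_iff_rpow_le (by norm_num) (hpos _)]
      refine le_trans ?_ (hlow a0)
      norm_num [Real.rpow_neg]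
    have h8 : g (a0 + N * 2 ^ e) ≤ Real.logb 2 B +
        2 * Real.logb 2 (1 + ((a0 + N * 2 ^ e : ℕ) : ℝ)) + ((a0 + N * 2 ^ e : ℕ) : ℝ) / 2 := by
      have h9 := hgrow _ le_rfl
      have h10 : g (a0 + N * 2 ^ e) ≤ _ := Real.logb_le_logb_of_le (b := 2) (by norm_num) (hpos _) h9
      have h11 : (0 : ℝ) < 1 + ((a0 + N * 2 ^ e : ℕ) : ℝ) := by positivity
      rw [Real.logb_mul (by positivity) (by positivity), Real.logb_mul (by positivity)
        (by positivity), Real.logb_pow, Real.logb_rpow (by norm_num) (by norm_num)] at h10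
      exact_mod_cast h10
    push_cast at hN h8
    linarith
  obtain ⟨r, hr0, hr, hr1, k, hk1, hk2, hk3⟩ := he g (a0 + s * 2 ^ e)
    (fun k _ _ => ⟨hg1 k, hg2 k⟩) hsg
  have hJ' := hJ F hF r hr0 hr1 k (by omega) (hpos k) ?_
  · obtain ⟨W, hW0, hWs, hWp, hWd, hWb⟩ := hJ'
    refine ⟨r, hr0, hr, W, hW0, ?_, hWp, ?_, hLT F hF r hr0 hr1 W hW0 hWd⟩
    · intro i hi
      refine hWs i (le_trans (Nat.pow_le_pow_right (by norm_num) ?_) hi)
      have h5 : (s + 1) * 2 ^ e ≤ N * 2 ^ e := Nat.mul_le_mul_right _ (by omega)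
      have h6 : (s + 1) * 2 ^ e = s * 2 ^ e + 2 ^ e := by ring
      omega
    · intro i
      have h5 := hWb i
      have h6 := hbig k (((Nat.le_add_right _ _).trans (Nat.le_add_right _ _)).trans hk1)
      have h7 : W i * T ≤ (2 * 3 ^ J + 1) * 2 ^ 3 ^ J * F W :=
        (mul_le_mul_of_nonneg_left h6 (hW0 i)).trans h5
      have h8 : (2 * 3 ^ J + 1) * 2 ^ 3 ^ J = T * ε := by
        rw [hT]
        field_simp
      rw [h8] at h7
      refine le_of_mul_le_mul_right ?_ hTpos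
      linarith
  · intro i hi
    obtain ⟨h5, h6⟩ := hk3 i hi
    have hdiv : (i : ℝ) / ((3 ^ J : ℕ) : ℝ) ≤ 1 := by
      rw [div_le_one (by positivity)]
      exact_mod_cast hi
    constructor
    · rw [← hge (k + i), ← hge k]
      calc (2 : ℝ) ^ g (k + i) ≤ 2 ^ (1 + r * i + g k) :=
            Real.rpow_le_rpow_of_exponent_le (by norm_num) (by linarith)
        _ = 2 * 2 ^ (r * i) * 2 ^ g k := by
            rw [Real.rpow_add (by norm_num), Real.rpow_add (by norm_num), Real.rpow_one]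
    · rw [← hge (k - i), ← hge k]
      calc (2 : ℝ) ^ g (k - i) ≤ 2 ^ (1 + -(r * i) + g k) :=
            Real.rpow_le_rpow_of_exponent_le (by norm_num) (by linarith)
        _ = 2 * 2 ^ (-(r * i)) * 2 ^ g k := by
            rw [Real.rpow_add (by norm_num), Real.rpow_add (by norm_num), Real.rpow_one]

end Pool.Agent.Lib.MP_cdd7b4_an.MX.H63
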