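import Pool.Agent.Lib.MP_cdd7b4_an.MX.H63.Basic

set_option autoImplicit false

/-! # TENT: an approximate eigenvector of the dilation -/

namespace Pool.Agent.Lib.MP_cdd7b4_an.MX.H63

open scoped BigOperators

/-- The normalised indicators. -/
noncomputable def zz (r : ℝ) (i : ℕ) : ℕ →₀ ℝ := (2 : ℝ) ^ (-(r * i)) • ind (2 ^ i)

theorem zz_apply (r : ℝ) (i n : ℕ) :
    zz r i n = if n < 2 ^ i then (2 : ℝ) ^ (-(r * i)) else 0 := by
  unfold zz
  rw [Finsupp.smul_apply, ind_apply]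
  split_ifs <;> simp

theorem zz_nonneg (r : ℝ) (i n : ℕ) : 0 ≤ zz r i n := by
  rw [zz_apply]
  split_ifs
  · positivity
  · exact le_rfl

theorem zz_half (r : ℝ) (i n : ℕ) : zz r i (n / 2) = (2 : ℝ) ^ r * zz r (i + 1) n := by
  rw [zz_apply, zz_apply]
  simp only [div_two_lt_pow]
  split_ifs
  · rw [← Real.rpow_add (by norm_num)]
    congr 1
    push_cast
    ring
  · rw [mul_zero]

theorem F_zz {F : (ℕ →₀ ℝ) → ℝ} (hF : SymF F) (r : ℝ) (i : ℕ) :
    F (zz r i) = (2 : ℝ) ^ (-(r * i)) * F (ind (2 ^ i)) := by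
  unfold zz
  rw [hF.smul, abs_of_pos (by positivity)]

/-- The tent function. -/
noncomputable def hat (k m : ℕ) (i : ℕ) : ℝ :=
  min 1 (max 0 ((3 * m - |(i : ℝ) - k|) / (2 * m)))

theorem hat_nonneg (k m i : ℕ) : 0 ≤ hat k m i := le_min zero_le_one (le_max_left _ _)

theorem hat_le_one (k m i : ℕ) : hat k m i ≤ 1 := min_le_left _ _

theorem hat_one {k m i : ℕ} (hm : 0 < m) (h : |(i : ℝ) - k| ≤ m) : hat k m i = 1 := by
  have hm' : (0 : ℝ) < m := by exact_mod_cast hm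
  unfold hat
  refine min_eq_left (le_trans ?_ (le_max_right _ _))
  rw [le_div_iff₀ (by positivity)]
  linarith

theorem hat_zero {k m i : ℕ} (h : 3 * (m : ℝ) ≤ |(i : ℝ) - k|) : hat k m i = 0 := by
  unfold hat
  rw [max_eq_left, min_eq_right zero_le_one]
  refine div_nonpos_of_nonpos_of_nonneg (by linarith) (by positivity)

theorem hat_diff {k m : ℕ} (hm : 0 < m) (i : ℕ) :
    |hat k m i - hat k m (i + 1)| ≤ 1 / (2 * m) := by
  have hm' : (0 : ℝ) < m := by exact_mod_cast hm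
  unfold hat
  refine (abs_min_sub_min_le_max _ _ _ _).trans ?_
  rw [sub_self, abs_zero]
  refine max_le (by positivity) ?_
  refine (abs_max_sub_max_le_max _ _ _ _).trans ?_
  rw [sub_self, abs_zero]
  refine max_le (by positivity) ?_
  rw [← sub_div, abs_div, abs_of_pos (show (0 : ℝ) < 2 * m by positivity)]
  gcongr
  have h1 : (3 * (m : ℝ) - |(i : ℝ) - k| - (3 * m - |((i + 1 : ℕ) : ℝ) - k|)) =
      |((i + 1 : ℕ) : ℝ) - k| - |(i : ℝ) - k| := by ring
  rw [h1]
  refine (abs_abs_sub_abs_le_abs_sub _ _).trans ?_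
  push_cast
  rw [show ((i : ℝ) + 1 - k - (i - k)) = 1 by ring, abs_one]

/-- Summation by parts. -/
theorem shift (h g : ℕ → ℝ) {a b : ℕ} (hab : a ≤ b) (ha : h a = 0) (hb : h b = 0) :
    ∑ i ∈ Finset.Ico a (b + 1), h i * g (i + 1) - ∑ i ∈ Finset.Ico a (b + 1), h i * g i =
      ∑ i ∈ Finset.Ico a b, (h i - h (i + 1)) * g (i + 1) := by
  have h1 : ∑ i ∈ Finset.Ico a (b + 1), h i * g (i + 1) = ∑ i ∈ Finset.Ico a b, h i * g (i + 1) := by
    rw [Finset.sum_Ico_succ_top hab, hb, zero_mul, add_zero]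
  have h2 : ∑ i ∈ Finset.Ico a (b + 1), h i * g i = ∑ i ∈ Finset.Ico a b, h (i + 1) * g (i + 1) := by
    rw [Finset.sum_eq_sum_Ico_succ_bot (Nat.lt_succ_of_le hab), ha, zero_mul, zero_add,
      Finset.sum_Ico_add' (fun i => h i * g i) a b 1]
  rw [h1, h2, ← Finset.sum_sub_distrib]
  exact Finset.sum_congr rfl fun i _ => by ring

/-- The sum of the normalised indicators near `k`. -/
noncomputable def S (r : ℝ) (k m : ℕ) : ℕ →₀ ℝ := ∑ i ∈ Finset.Ico (k - m) (k + m + 1), zz r i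

theorem S_apply (r : ℝ) (k m n : ℕ) :
    S r k m n = ∑ i ∈ Finset.Ico (k - m) (k + m + 1), zz r i n := by
  unfold S
  rw [Finsupp.finsetSum_apply]

/-- The tent vector. -/
noncomputable def WW (r : ℝ) (k m : ℕ) : ℕ →₀ ℝ :=
  ∑ i ∈ Finset.Ico (k - 3 * m) (k + 3 * m + 1), hat k m i • zz r i

theorem WW_apply (r : ℝ) (k m n : ℕ) :
    WW r k m n = ∑ i ∈ Finset.Ico (k - 3 * m) (k + 3 * m + 1), hat k m i * zz r i n := by
  unfold WW
  rw [Finsupp.finsetSum_apply]
  rfl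

theorem WW_nonneg (r : ℝ) (k m n : ℕ) : 0 ≤ WW r k m n := by
  rw [WW_apply]
  exact Finset.sum_nonneg fun i _ => mul_nonneg (hat_nonneg _ _ _) (zz_nonneg _ _ _)

theorem S_nonneg (r : ℝ) (k m n : ℕ) : 0 ≤ S r k m n := by
  rw [S_apply]
  exact Finset.sum_nonneg fun i _ => zz_nonneg _ _ _

theorem S_le_WW (r : ℝ) {k m : ℕ} (hm : 0 < m) (n : ℕ) : S r k m n ≤ WW r k m n := by
  rw [S_apply, WW_apply]
  have h1 : ∑ i ∈ Finset.Ico (k - m) (k + m + 1), zz r i n =
      ∑ i ∈ Finset.Ico (k - m) (k + m + 1), hat k m i * zz r i n := by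
    refine Finset.sum_congr rfl fun i hi => ?_
    rw [Finset.mem_Ico] at hi
    rw [hat_one hm, one_mul]
    rw [abs_le]
    constructor
    · have : (k : ℝ) ≤ i + m := by
        have h := hi.1
        have : k ≤ i + m := by omega
        exact_mod_cast this
      linarith
    · have : (i : ℝ) ≤ k + m := by
        have : i ≤ k + m := by omega
        exact_mod_cast this
      linarith
  rw [h1]
  refine Finset.sum_le_sum_of_subset_of_nonneg ?_ fun i _ _ =>
    mul_nonneg (hat_nonneg _ _ _) (zz_nonneg _ _ _)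
  refine Finset.Ico_subset_Ico ?_ ?_
  · omega
  · omega

theorem dil_WW (r : ℝ) {k m : ℕ} (hm : 0 < m) (hk : 3 * m ≤ k) (n : ℕ) :
    |(dil (WW r k m) - (2 : ℝ) ^ r • WW r k m) n| ≤ (2 : ℝ) ^ r * (1 / (2 * m)) * S r k (3 * m) n := by
  have hm' : (0 : ℝ) < m := by exact_mod_cast hm
  rw [Finsupp.sub_apply, Finsupp.smul_apply, dil_apply, smul_eq_mul, WW_apply, WW_apply, S_apply]
  simp only [zz_half]
  have h1 : ∑ i ∈ Finset.Ico (k - 3 * m) (k + 3 * m + 1),
        hat k m i * ((2 : ℝ) ^ r * zz r (i + 1) n) -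
      (2 : ℝ) ^ r * ∑ i ∈ Finset.Ico (k - 3 * m) (k + 3 * m + 1), hat k m i * zz r i n =
      (2 : ℝ) ^ r * (∑ i ∈ Finset.Ico (k - 3 * m) (k + 3 * m + 1), hat k m i * zz r (i + 1) n -
        ∑ i ∈ Finset.Ico (k - 3 * m) (k + 3 * m + 1), hat k m i * zz r i n) := by
    rw [mul_sub]
    congr 1
    rw [Finset.mul_sum]
    exact Finset.sum_congr rfl fun i _ => by ring
  have ha : hat k m (k - 3 * m) = 0 := by
    refine hat_zero ?_
    rw [Nat.cast_sub hk]
    push_cast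
    rw [show (k : ℝ) - 3 * m - k = -(3 * m) by ring, abs_neg, abs_of_pos (by positivity)]
  have hb : hat k m (k + 3 * m) = 0 := by
    refine hat_zero ?_
    push_cast
    rw [show (k : ℝ) + 3 * m - k = 3 * m by ring, abs_of_pos (by positivity)]
  rw [h1, shift (hat k m) (fun i => zz r i n) (by omega) ha hb, abs_mul, abs_of_pos (show (0 : ℝ) < 2 ^ r by positivity),
    mul_assoc]
  refine mul_le_mul_of_nonneg_left ?_ (by positivity)
  refine (Finset.abs_sum_le_sum_abs _ _).trans ?_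
  have h2 : ∀ i ∈ Finset.Ico (k - 3 * m) (k + 3 * m),
      |(hat k m i - hat k m (i + 1)) * zz r (i + 1) n| ≤ 1 / (2 * m) * zz r (i + 1) n := by
    intro i _
    rw [abs_mul, abs_of_nonneg (zz_nonneg r (i + 1) n)]
    exact mul_le_mul_of_nonneg_right (hat_diff hm i) (zz_nonneg _ _ _)
  refine (Finset.sum_le_sum h2).trans ?_
  rw [← Finset.mul_sum]
  refine mul_le_mul_of_nonneg_left ?_ (by positivity)
  rw [Finset.sum_eq_sum_Ico_succ_bot (show k - 3 * m < k + 3 * m + 1 by omega),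
    ← Finset.sum_Ico_add' (fun i => zz r i n) (k - 3 * m) (k + 3 * m) 1]
  linarith [zz_nonneg r (k - 3 * m) n]

theorem tent : TentStatement := by
  intro c hc
  obtain ⟨n, hn⟩ : ∃ n : ℕ, 9 / c ≤ 3 ^ n := by
    obtain ⟨n, hn⟩ := pow_unbounded_of_one_lt (9 / c) (show (1 : ℝ) < 3 by norm_num)
    exact ⟨n, hn.le⟩
  have hn' : 9 ≤ c * 3 ^ n := by
    rw [div_le_iff₀ hc] at hn
    linarith
  refine ⟨2 * n + 2, ?_⟩
  intro F hF r hr0 hr1 k hk hpos hgrow
  set L : ℕ := 3 ^ (2 * n + 2) with hL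
  set f : ℝ := F (zz r k) with hf
  have hfpos : 0 < f := by
    rw [hf, F_zz hF]
    positivity
  have hf' : F (ind (2 ^ k)) = (2 : ℝ) ^ (r * k) * f := by
    rw [hf, F_zz hF, ← mul_assoc, ← Real.rpow_add (by norm_num), add_neg_cancel, Real.rpow_zero,
      one_mul]
  -- the norms of the summands
  have hz : ∀ i, k - L ≤ i → i < k + L + 1 → F (zz r i) ≤ 2 * f := by
    intro i h1 h2
    rw [F_zz hF]
    rcases le_total k i with h | h
    · obtain ⟨t, rfl⟩ := Nat.exists_eq_add_of_le h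
      have h3 := (hgrow t (by omega)).1
      rw [hf'] at h3
      calc (2 : ℝ) ^ (-(r * (k + t : ℕ))) * F (ind (2 ^ (k + t)))
          ≤ (2 : ℝ) ^ (-(r * (k + t : ℕ))) * (2 * 2 ^ (r * t) * ((2 : ℝ) ^ (r * k) * f)) :=
            mul_le_mul_of_nonneg_left h3 (by positivity)
        _ = ((2 : ℝ) ^ (-(r * (k + t : ℕ))) * 2 ^ (r * t) * (2 : ℝ) ^ (r * k)) * (2 * f) := by ring
        _ = 2 * f := by
            rw [← Real.rpow_add (by norm_num), ← Real.rpow_add (by norm_num)]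
            rw [show -(r * ((k + t : ℕ) : ℝ)) + r * t + r * k = 0 by push_cast; ring,
              Real.rpow_zero, one_mul]
    · obtain ⟨t, ht⟩ := Nat.exists_eq_add_of_le h
      have hi : i = k - t := by omega
      have h3 := (hgrow t (by omega)).2
      rw [← hi, hf'] at h3
      calc (2 : ℝ) ^ (-(r * (i : ℕ))) * F (ind (2 ^ i))
          ≤ (2 : ℝ) ^ (-(r * (i : ℕ))) * (2 * 2 ^ (-(r * t)) * ((2 : ℝ) ^ (r * k) * f)) :=
            mul_le_mul_of_nonneg_left h3 (by positivity)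
        _ = ((2 : ℝ) ^ (-(r * (i : ℕ))) * 2 ^ (-(r * t)) * (2 : ℝ) ^ (r * k)) * (2 * f) := by ring
        _ = 2 * f := by
            rw [← Real.rpow_add (by norm_num), ← Real.rpow_add (by norm_num)]
            have : (k : ℝ) = i + t := by exact_mod_cast ht
            rw [this, show -(r * (i : ℝ)) + -(r * t) + r * (i + t) = 0 by ring,
              Real.rpow_zero, one_mul]
  have hG0 : ∀ m, m ≤ L → f ≤ F (S r k m) := by
    intro m hm
    refine hF.mono _ _ fun i => ?_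
    rw [abs_of_nonneg (zz_nonneg _ _ _), abs_of_nonneg (S_nonneg _ _ _ _), S_apply]
    exact Finset.single_le_sum (f := fun j => zz r j i) (fun j _ => zz_nonneg _ _ _)
      (Finset.mem_Ico.2 ⟨by omega, by omega⟩)
  have hGL : F (S r k L) ≤ (2 * L + 1) * (2 * f) := by
    unfold S
    refine (F_sum hF _ _).trans ?_
    refine (Finset.sum_le_sum fun i hi => hz i (Finset.mem_Ico.1 hi).1 (Finset.mem_Ico.1 hi).2).trans ?_
    rw [Finset.sum_const, nsmul_eq_mul, Nat.card_Ico]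
    refine mul_le_mul_of_nonneg_right ?_ (by positivity)
    have : k + L + 1 - (k - L) = 2 * L + 1 := by omega
    rw [this]
    push_cast
    exact le_rfl
  -- the choice of the scale
  obtain ⟨j, hj1, hj2, hj3⟩ : ∃ j, n ≤ j ∧ j < 2 * n + 2 ∧
      F (S r k (3 ^ (j + 1))) ≤ c * 3 ^ j * F (S r k (3 ^ j)) := by
    by_contra hcon
    push Not at hcon
    have hind : ∀ t, n + t ≤ 2 * n + 2 → 9 ^ t * f ≤ F (S r k (3 ^ (n + t))) := by
      intro t
      induction t with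
      | zero =>
        intro _
        rw [pow_zero, one_mul, add_zero]
        exact hG0 _ (Nat.pow_le_pow_right (by norm_num) (by omega))
      | succ t ih =>
        intro ht
        have h1 := ih (by omega)
        have h2 := hcon (n + t) (by omega) (by omega)
        have h3 : (9 : ℝ) ≤ c * 3 ^ (n + t) := by
          refine hn'.trans ?_
          refine mul_le_mul_of_nonneg_left ?_ hc.le
          exact pow_le_pow_right₀ (by norm_num) (by omega)
        have h4 : 9 * F (S r k (3 ^ (n + t))) ≤ c * 3 ^ (n + t) * F (S r k (3 ^ (n + t))) :=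
          mul_le_mul_of_nonneg_right h3 (F_nonneg hF _)
        rw [← add_assoc n t 1, pow_succ]
        linarith
    have h5 := hind (n + 2) (by omega)
    rw [show n + (n + 2) = 2 * n + 2 by ring, ← hL] at h5
    have h6 : (L : ℝ) = 9 * 9 ^ n := by
      rw [hL]
      push_cast
      rw [show 2 * n + 2 = 2 * (n + 1) by ring, pow_mul]
      norm_num [pow_succ]
      ring
    have h7 : (9 : ℝ) ^ (n + 2) * f ≤ (2 * (9 * 9 ^ n) + 1) * (2 * f) := by
      rw [← h6]
      exact h5.trans hGL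
    have h8 : (1 : ℝ) ≤ 9 ^ n := one_le_pow₀ (by norm_num)
    have h9 : (9 : ℝ) ^ (n + 2) ≤ (2 * (9 * 9 ^ n) + 1) * 2 := by
      refine le_of_mul_le_mul_right ?_ hfpos
      linarith
    rw [pow_add] at h9
    norm_num at h9
    linarith
  have hm : 0 < 3 ^ j := by positivity
  have hmL : 3 * 3 ^ j ≤ L := by
    rw [hL, show 3 * 3 ^ j = 3 ^ (j + 1) by ring]
    exact Nat.pow_le_pow_right (by norm_num) (by omega)
  have hS : f ≤ F (S r k (3 ^ j)) := hG0 _ (by omega)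
  have hSW : F (S r k (3 ^ j)) ≤ F (WW r k (3 ^ j)) := by
    refine hF.mono _ _ fun i => ?_
    rw [abs_of_nonneg (S_nonneg _ _ _ _), abs_of_nonneg (WW_nonneg _ _ _ _)]
    exact S_le_WW r hm i
  refine ⟨WW r k (3 ^ j), WW_nonneg _ _ _, ?_, by linarith, ?_, ?_⟩
  · intro i hi
    rw [WW_apply]
    refine Finset.sum_eq_zero fun l hl => ?_
    rw [Finset.mem_Ico] at hl
    rw [zz_apply, if_neg, mul_zero]
    have h1 : (2 : ℕ) ^ l ≤ 2 ^ (k + L) := Nat.pow_le_pow_right (by norm_num) (by omega)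
    omega
  · have h1 : F (dil (WW r k (3 ^ j)) - (2 : ℝ) ^ r • WW r k (3 ^ j)) ≤
        F (((2 : ℝ) ^ r * (1 / (2 * (3 ^ j : ℕ)))) • S r k (3 * 3 ^ j)) := by
      refine hF.mono _ _ fun i => ?_
      refine (dil_WW r hm (by omega) i).trans ?_
      rw [Finsupp.smul_apply, smul_eq_mul]
      exact le_abs_self _
    rw [hF.smul, abs_of_nonneg (by positivity)] at h1
    refine h1.trans ?_
    rw [show 3 * 3 ^ j = 3 ^ (j + 1) by ring]
    have h2 : (2 : ℝ) ^ r ≤ 2 := by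
      calc (2 : ℝ) ^ r ≤ 2 ^ (1 : ℝ) := Real.rpow_le_rpow_of_exponent_le (by norm_num) hr1
        _ = 2 := Real.rpow_one _
    have h3 : (2 : ℝ) ^ r * (1 / (2 * (3 ^ j : ℕ))) ≤ 1 / (3 ^ j : ℝ) := by
      push_cast
      rw [mul_one_div, div_le_div_iff₀ (by positivity) (by positivity)]
      nlinarith [show (0 : ℝ) < 3 ^ j by positivity]
    calc (2 : ℝ) ^ r * (1 / (2 * (3 ^ j : ℕ))) * F (S r k (3 ^ (j + 1)))
        ≤ 1 / (3 ^ j : ℝ) * F (S r k (3 ^ (j + 1))) :=
          mul_le_mul_of_nonneg_right h3 (F_nonneg hF _)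
      _ ≤ 1 / (3 ^ j : ℝ) * (c * 3 ^ j * F (S r k (3 ^ j))) :=
          mul_le_mul_of_nonneg_left hj3 (by positivity)
      _ = c * F (S r k (3 ^ j)) := by
          field_simp
      _ ≤ c * F (WW r k (3 ^ j)) := mul_le_mul_of_nonneg_left hSW hc.le
  · intro i
    rw [hf', WW_apply]
    have h1 : ∑ l ∈ Finset.Ico (k - 3 * 3 ^ j) (k + 3 * 3 ^ j + 1), hat k (3 ^ j) l * zz r l i ≤
        ∑ l ∈ Finset.Ico (k - 3 * 3 ^ j) (k + 3 * 3 ^ j + 1),
          (2 : ℝ) ^ (L : ℝ) * (2 : ℝ) ^ (-(r * k)) := by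
      refine Finset.sum_le_sum fun l hl => ?_
      rw [Finset.mem_Ico] at hl
      have h2 : zz r l i ≤ (2 : ℝ) ^ (L : ℝ) * (2 : ℝ) ^ (-(r * k)) := by
        rw [zz_apply, ← Real.rpow_add (by norm_num)]
        split_ifs
        · refine Real.rpow_le_rpow_of_exponent_le (by norm_num) ?_
          have h3 : (k : ℝ) ≤ l + L := by
            have : k ≤ l + L := by omega
            exact_mod_cast this
          have h4 : r * k ≤ r * l + r * L := by
            rw [← mul_add]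
            exact mul_le_mul_of_nonneg_left h3 hr0
          have h5 : r * L ≤ L := by
            have : (0 : ℝ) ≤ L := Nat.cast_nonneg _
            nlinarith
          linarith
        · positivity
      calc hat k (3 ^ j) l * zz r l i ≤ 1 * zz r l i :=
            mul_le_mul_of_nonneg_right (hat_le_one _ _ _) (zz_nonneg _ _ _)
        _ ≤ _ := by rw [one_mul]; exact h2
    rw [Finset.sum_const, nsmul_eq_mul, Nat.card_Ico] at h1
    have h2 : ((k + 3 * 3 ^ j + 1 - (k - 3 * 3 ^ j) : ℕ) : ℝ) ≤ 2 * L + 1 := by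
      have : k + 3 * 3 ^ j + 1 - (k - 3 * 3 ^ j) ≤ 2 * L + 1 := by omega
      exact_mod_cast this
    have h6 : (2 : ℝ) ^ (L : ℝ) = 2 ^ L := Real.rpow_natCast _ _
    have h7 : (2 : ℝ) ^ (-(r * k)) * (2 : ℝ) ^ (r * k) = 1 := by
      rw [← Real.rpow_add (by norm_num), neg_add_cancel, Real.rpow_zero]
    calc (∑ l ∈ Finset.Ico (k - 3 * 3 ^ j) (k + 3 * 3 ^ j + 1), hat k (3 ^ j) l * zz r l i) *
          ((2 : ℝ) ^ (r * k) * f)
        ≤ (((k + 3 * 3 ^ j + 1 - (k - 3 * 3 ^ j) : ℕ) : ℝ) *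
            ((2 : ℝ) ^ (L : ℝ) * (2 : ℝ) ^ (-(r * k)))) * ((2 : ℝ) ^ (r * k) * f) :=
          mul_le_mul_of_nonneg_right h1 (by positivity)
      _ = ((k + 3 * 3 ^ j + 1 - (k - 3 * 3 ^ j) : ℕ) : ℝ) * (2 : ℝ) ^ (L : ℝ) * f *
            ((2 : ℝ) ^ (-(r * k)) * (2 : ℝ) ^ (r * k)) := by ring
      _ = ((k + 3 * 3 ^ j + 1 - (k - 3 * 3 ^ j) : ℕ) : ℝ) * 2 ^ L * f := by rw [h7, h6, mul_one]
      _ ≤ (2 * L + 1) * 2 ^ L * f := by
          refine mul_le_mul_of_nonneg_right ?_ hfpos.le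
          exact mul_le_mul_of_nonneg_right h2 (by positivity)
      _ ≤ (2 * 3 ^ (2 * n + 2) + 1) * 2 ^ 3 ^ (2 * n + 2) * F (WW r k (3 ^ j)) := by
          have h8 : (L : ℝ) = 3 ^ (2 * n + 2) := by
            rw [hL]
            push_cast
            rfl
          rw [h8]
          refine mul_le_mul_of_nonneg_left (hS.trans hSW) (by positivity)

end Pool.Agent.Lib.MP_cdd7b4_an.MX.H63
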