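import Pool.Agent.Lib.MP_cdd7b4_an.MX.Iface

set_option autoImplicit false

/-! # Symmetric norms on finitely supported sequences: basic facts -/

namespace Pool.Agent.Lib.MP_cdd7b4_an.MX.H63

open scoped BigOperators

theorem ind_apply (d n : ℕ) : ind d n = if n < d then 1 else 0 := by
  unfold ind
  rw [Finsupp.finsetSum_apply]
  simp only [Finsupp.single_apply]
  rw [Finset.sum_ite_eq' (Finset.range d) n]
  simp [Finset.mem_range]

theorem cop_apply {m : ℕ} (b : Fin m → ℝ) (W : ℕ →₀ ℝ) (j : Fin m) (i : ℕ) :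
    cop b W (m * i + j) = b j * W i := by
  unfold cop
  rw [Finsupp.finsetSum_apply, Finset.sum_eq_single j]
  · rw [Finsupp.smul_apply, smul_eq_mul]
    have : (W.embDomain (em j)) (m * i + j) = W i := by
      have := Finsupp.embDomain_apply_self (em j) W i
      exact this
    rw [this]
  · intro j' _ hj'
    rw [Finsupp.smul_apply, smul_eq_mul, Finsupp.embDomain_of_notMem_range, mul_zero]
    rintro ⟨i', hi'⟩
    apply hj'
    have h1 : m * i' + (j' : ℕ) = m * i + j := hi'
    have hm : 0 < m := j.pos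
    have h2 := congrArg (fun x => x % m) h1
    simp only [Nat.mul_add_mod, Nat.mod_eq_of_lt j'.2, Nat.mod_eq_of_lt j.2] at h2
    exact Fin.ext h2
  · intro h
    exact absurd (Finset.mem_univ j) h

theorem dil_apply (W : ℕ →₀ ℝ) (n : ℕ) : dil W n = W (n / 2) := by
  have h := cop_apply (m := 2) (fun _ => 1) W ⟨n % 2, Nat.mod_lt _ (by norm_num)⟩ (n / 2)
  rw [one_mul] at h
  have h2 : 2 * (n / 2) + n % 2 = n := Nat.div_add_mod n 2
  simp only [h2] at h
  exact h

theorem div_two_lt_pow (n i : ℕ) : n / 2 < 2 ^ i ↔ n < 2 ^ (i + 1) := by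
  rw [Nat.div_lt_iff_lt_mul (by norm_num), pow_succ]

theorem dil_ind (i : ℕ) : dil (ind (2 ^ i)) = ind (2 ^ (i + 1)) := by
  ext n
  rw [dil_apply, ind_apply, ind_apply]
  simp only [div_two_lt_pow]

section

variable {F : (ℕ →₀ ℝ) → ℝ} (hF : SymF F)

include hF

theorem F_zero : F 0 = 0 := by
  have := hF.smul 0 0
  simpa using this

theorem F_nonneg (u : ℕ →₀ ℝ) : 0 ≤ F u := by
  have := hF.mono 0 u (fun i => by simp)
  rwa [F_zero hF] at this

theorem F_sum {ι : Type*} (s : Finset ι) (f : ι → ℕ →₀ ℝ) : F (∑ i ∈ s, f i) ≤ ∑ i ∈ s, F (f i) := by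
  classical
  induction s using Finset.induction_on with
  | empty => simp [F_zero hF]
  | insert a s ha ih =>
    rw [Finset.sum_insert ha, Finset.sum_insert ha]
    exact (hF.add _ _).trans (by linarith)

theorem F_dil_le (W : ℕ →₀ ℝ) : F (dil W) ≤ 2 * F W := by
  unfold dil cop
  refine (F_sum hF _ _).trans ?_
  have : ∀ j : Fin 2, F ((1 : ℝ) • W.embDomain (em j)) = F W := by
    intro j
    rw [one_smul, hF.emb]
  rw [Fin.sum_univ_two, this, this]
  linarith

theorem F_ind_mono {a b : ℕ} (h : a ≤ b) : F (ind a) ≤ F (ind b) := by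
  refine hF.mono _ _ fun i => ?_
  rw [ind_apply, ind_apply]
  split_ifs with h1 h2
  · exact le_rfl
  · omega
  · simp
  · exact le_rfl

theorem F_ind_succ (k : ℕ) : F (ind (2 ^ (k + 1))) ≤ 2 * F (ind (2 ^ k)) := by
  rw [← dil_ind]
  exact F_dil_le hF _

end

end Pool.Agent.Lib.MP_cdd7b4_an.MX.H63
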